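import Pool.Agent.Y763.AH.B

/-! # Lower bounds for the means of the form factor with continuous weights -/

set_option autoImplicit false

open MeasureTheory Set Filter Topology

namespace Q241.LR

open Pool.Agent.Y749.Rig
open Pool.Agent.Y763.AH

section

variable {l : Filter ℝ} {G : ℝ → ℝ → ℝ} {H f : ℝ → ℝ} {a b : ℝ}

lemma low_weight (hGc : ∀ T, Continuous (G T)) (hG0 : ∀ᶠ T in l, ∀ α, 0 ≤ G T α)
    (hHc : Continuous H) (hH0 : ∀ α, 0 ≤ H α) (hab : a < b)
    (hlow : ∀ a' b' : ℝ, a ≤ a' → a' < b' → b' ≤ b → ∀ ε : ℝ, 0 < ε → ∀ᶠ T in l,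
      (∫ α in a'..b', H α) - ε ≤ ∫ α in a'..b', G T α)
    (hf : Continuous f) (hf0 : ∀ x ∈ Icc a b, 0 ≤ f x) {ε : ℝ} (hε : 0 < ε) :
    ∀ᶠ T in l, (∫ α in a..b, f α * H α) - ε ≤ ∫ α in a..b, f α * G T α := by
  obtain ⟨J, hJ⟩ : ∃ J : ℝ, J = ∫ α in a..b, H α := ⟨_, rfl⟩
  have hJ0 : 0 ≤ J := by
    rw [hJ]
    exact intervalIntegral.integral_nonneg hab.le fun x _ => hH0 x
  obtain ⟨ω, hω⟩ : ∃ ω : ℝ, ω = ε / (4 * (J + 1)) := ⟨_, rfl⟩
  have hω0 : 0 < ω := by rw [hω]; positivity
  have huc := (isCompact_Icc (a := a) (b := b)).uniformContinuousOn_of_continuous hf.continuousOn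
  rw [Metric.uniformContinuousOn_iff] at huc
  obtain ⟨δ, hδ, hδf⟩ := huc ω hω0
  obtain ⟨M, hM⟩ := (isCompact_Icc (a := a) (b := b)).exists_bound_of_continuousOn hf.continuousOn
  have hM0 : 0 ≤ M := (norm_nonneg _).trans (hM a ⟨le_rfl, hab.le⟩)
  obtain ⟨n, hn⟩ := exists_nat_gt ((b - a) / δ)
  have hn0 : (0 : ℝ) < n := lt_of_le_of_lt (div_nonneg (by linarith) hδ.le) hn
  have hstep : (b - a) / n < δ := by
    rw [div_lt_iff₀ hδ] at hn
    rw [div_lt_iff₀ hn0]
    linarith
  have hs0 : 0 < (b - a) / n := div_pos (by linarith) hn0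
  obtain ⟨x, hx⟩ : ∃ x : ℕ → ℝ, ∀ k, x k = a + k * ((b - a) / n) := ⟨_, fun k => rfl⟩
  have hx0 : x 0 = a := by rw [hx]; simp
  have hxn : x n = b := by rw [hx]; field_simp; ring
  have hxs : ∀ k, x (k + 1) = x k + (b - a) / n := by
    intro k
    rw [hx, hx]
    push_cast; ring
  have hxa : ∀ k, a ≤ x k := by
    intro k
    rw [hx]
    have : (0 : ℝ) ≤ k * ((b - a) / n) := by positivity
    linarith
  have hxb : ∀ k, k ≤ n → x k ≤ b := by
    intro k hk
    rw [← hxn, hx, hx]
    have : (k : ℝ) ≤ n := by exact_mod_cast hk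
    have := mul_le_mul_of_nonneg_right this hs0.le
    linarith
  obtain ⟨e, he⟩ : ∃ e : ℝ, e = ε / (4 * n * (M + 1)) := ⟨_, rfl⟩
  have he0 : 0 < e := by rw [he]; positivity
  have hev : ∀ᶠ T in l, ∀ k ∈ Finset.range n, (∫ α in (x k)..(x (k + 1)), H α) - e ≤
      ∫ α in (x k)..(x (k + 1)), G T α := by
    rw [Filter.eventually_all_finset]
    intro k hk
    rw [Finset.mem_range] at hk
    exact hlow (x k) (x (k + 1)) (hxa k) (by rw [hxs]; linarith) (hxb (k + 1) hk) e he0
  filter_upwards [hev, hG0] with T hT hT0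
  have hci : ∀ {g : ℝ → ℝ}, Continuous g → ∀ p q : ℝ, IntervalIntegrable g volume p q :=
    fun hg p q => hg.intervalIntegrable p q
  have c1 : Continuous fun α => f α * G T α := hf.mul (hGc T)
  have c2 : Continuous fun α => f α * H α := hf.mul hHc
  have c3 : Continuous fun α => 2 * ω * H α := continuous_const.mul hHc
  have c4 : Continuous fun α => f α * H α - 2 * ω * H α := c2.sub c3
  have s1 : ∑ k ∈ Finset.range n, ∫ α in (x k)..(x (k + 1)), f α * G T α =
      ∫ α in a..b, f α * G T α := by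
    rw [intervalIntegral.sum_integral_adjacent_intervals fun k _ => hci c1 _ _, hx0, hxn]
  have s2 : ∑ k ∈ Finset.range n, ∫ α in (x k)..(x (k + 1)), (f α * H α - 2 * ω * H α) =
      ∫ α in a..b, (f α * H α - 2 * ω * H α) := by
    rw [intervalIntegral.sum_integral_adjacent_intervals fun k _ =>
      hci c4 _ _, hx0, hxn]
  have s3 : ∫ α in a..b, (f α * H α - 2 * ω * H α) = (∫ α in a..b, f α * H α) - 2 * ω * J := by
    rw [intervalIntegral.integral_sub (hci c2 _ _) (hci c3 _ _),
      intervalIntegral.integral_const_mul, hJ]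
  have key : ∀ k ∈ Finset.range n, (∫ α in (x k)..(x (k + 1)), (f α * H α - 2 * ω * H α)) - M * e ≤
      ∫ α in (x k)..(x (k + 1)), f α * G T α := by
    intro k hk
    have hk' := Finset.mem_range.1 hk
    have hle : x k ≤ x (k + 1) := by rw [hxs]; linarith
    have hmem : x k ∈ Icc a b := ⟨hxa k, hxb k hk'.le⟩
    have hfk := hM (x k) hmem
    rw [Real.norm_eq_abs] at hfk
    have hfk1 := (le_abs_self _).trans hfk
    have hfk0 := hf0 _ hmem
    have hdist : ∀ y ∈ Icc (x k) (x (k + 1)), |f y - f (x k)| < ω := by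
      intro y hy
      have hy' : y ∈ Icc a b := ⟨(hxa k).trans hy.1, hy.2.trans (hxb (k + 1) hk')⟩
      have := hδf y hy' (x k) hmem (by
        rw [Real.dist_eq, abs_of_nonneg (by linarith [hy.1])]
        have := hy.2
        rw [hxs] at this
        linarith)
      rwa [Real.dist_eq] at this
    obtain ⟨c, hc⟩ : ∃ c : ℝ, c = max 0 (f (x k) - ω) := ⟨_, rfl⟩
    have hc0 : 0 ≤ c := by rw [hc]; exact le_max_left _ _
    have hcM : c ≤ M := by
      rw [hc]
      exact max_le hM0 (by linarith)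
    have hcy : ∀ y ∈ Icc (x k) (x (k + 1)), c ≤ f y ∧ f y - 2 * ω ≤ c := by
      intro y hy
      have hy' : y ∈ Icc a b := ⟨(hxa k).trans hy.1, hy.2.trans (hxb (k + 1) hk')⟩
      have h1 := abs_lt.1 (hdist y hy)
      constructor
      · rw [hc]
        exact max_le (hf0 y hy') (by linarith)
      · rw [hc]
        have := le_max_right 0 (f (x k) - ω)
        linarith
    calc (∫ α in (x k)..(x (k + 1)), (f α * H α - 2 * ω * H α)) - M * e
        ≤ (∫ α in (x k)..(x (k + 1)), c * H α) - c * e := by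
          refine sub_le_sub ?_ (mul_le_mul_of_nonneg_right hcM he0.le)
          refine intervalIntegral.integral_mono_on hle (hci c4 _ _)
            (hci (continuous_const.mul hHc) _ _) fun y hy => ?_
          have h1 := (hcy y hy).2
          have h2 := mul_le_mul_of_nonneg_right h1 (hH0 y)
          linarith
      _ = c * ((∫ α in (x k)..(x (k + 1)), H α) - e) := by
          rw [intervalIntegral.integral_const_mul]
          ring
      _ ≤ c * ∫ α in (x k)..(x (k + 1)), G T α := mul_le_mul_of_nonneg_left (hT k hk) hc0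
      _ = ∫ α in (x k)..(x (k + 1)), c * G T α := (intervalIntegral.integral_const_mul _ _).symm
      _ ≤ ∫ α in (x k)..(x (k + 1)), f α * G T α := by
          refine intervalIntegral.integral_mono_on hle (hci (continuous_const.mul (hGc T)) _ _)
            (hci c1 _ _) fun y hy => ?_
          exact mul_le_mul_of_nonneg_right (hcy y hy).1 (hT0 y)
  have h1 := Finset.sum_le_sum key
  rw [Finset.sum_sub_distrib, s1, s2, s3, Finset.sum_const, Finset.card_range, nsmul_eq_mul] at h1
  have h2 : (n : ℝ) * (M * e) ≤ ε / 4 := by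
    rw [he]
    have : (n : ℝ) * (M * (ε / (4 * n * (M + 1)))) = M / (M + 1) * (ε / 4) := by
      field_simp
    rw [this]
    have h3 : M / (M + 1) ≤ 1 := by
      rw [div_le_one (by positivity)]
      linarith
    calc _ ≤ 1 * (ε / 4) := by gcongr
      _ = _ := one_mul _
  have h3 : 2 * ω * J ≤ ε / 2 := by
    rw [hω]
    have : 2 * (ε / (4 * (J + 1))) * J = J / (J + 1) * (ε / 2) := by
      field_simp
      ring
    rw [this]
    have h3 : J / (J + 1) ≤ 1 := by
      rw [div_le_one (by positivity)]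
      linarith
    calc _ ≤ 1 * (ε / 2) := by gcongr
      _ = _ := one_mul _
  linarith

end

variable {l : Filter ℝ}

/-- lower bounds for the means over windows to the right of `1` -/
def LowOne (l : Filter ℝ) : Prop := ∀ a b : ℝ, 1 ≤ a → a < b → ∀ ε : ℝ, 0 < ε →
  ∀ᶠ T in l, (b - a) - ε ≤ ∫ α in a..b, Fr T α

/-- lower bounds for the means over all windows -/
def LowAll (l : Filter ℝ) : Prop := ∀ a b : ℝ, 0 < a → a < b → ∀ ε : ℝ, 0 < ε →
  ∀ᶠ T in l, (∫ α in a..b, mn α) - ε ≤ ∫ α in a..b, Fr T α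

/-- the mass of the form factor in a neighbourhood of the origin -/
lemma mass (RH : RiemannHypothesis) {κ : ℝ} (hκ : 0 < κ) (hκ1 : κ < 1) :
    Tendsto (fun T => ∫ α in (-κ)..κ, Fr T α) atTop (𝓝 (1 + κ ^ 2)) := by
  have t1 := (A_lim RH (R := 2) (by norm_num) hκ hκ1).sub (A_lim RH (R := 1) le_rfl hκ hκ1)
  have e1 : (2 + 2 * κ ^ 2 - 2 * κ ^ 3 / 3) - (1 + 1 * κ ^ 2 - 2 * κ ^ 3 / 3) = 1 + κ ^ 2 := by ring
  rw [e1] at t1
  refine t1.congr fun T => ?_
  have hFc := Fr_cont T
  have c1 : ∀ R : ℝ, IntervalIntegrable (fun α : ℝ => (R - |α|) * Fr T α) volume (-κ) κ := by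
    intro R
    apply Continuous.intervalIntegrable
    fun_prop
  rw [← intervalIntegral.integral_sub (c1 2) (c1 1)]
  refine intervalIntegral.integral_congr fun α _ => ?_
  show (2 - |α|) * Fr T α - (1 - |α|) * Fr T α = Fr T α
  ring

lemma mn_int {a b : ℝ} (ha : 0 < a) (hab : a < b) (hb : b ≤ 1) :
    ∫ α in a..b, mn α = (b ^ 2 - a ^ 2) / 2 := by
  rw [intervalIntegral.integral_congr (g := fun α => α), integral_id]
  intro α hα
  rw [uIcc_of_le hab.le] at hα
  show mn α = α
  unfold mn
  rw [abs_of_pos (by linarith [hα.1]), min_eq_left (by linarith [hα.2])]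

/-- Montgomery's theorem for the windows inside `(0, 1)` -/
lemma win (RH : RiemannHypothesis) {a b : ℝ} (ha : 0 < a) (hab : a < b) (hb : b < 1) :
    Tendsto (fun T => ∫ α in a..b, Fr T α) atTop (𝓝 (∫ α in a..b, mn α)) := by
  have t1 := ((mass RH (ha.trans hab) hb).sub (mass RH ha (hab.trans hb))).div_const 2
  have e1 : (1 + b ^ 2 - (1 + a ^ 2)) / 2 = ∫ α in a..b, mn α := by
    rw [mn_int ha hab hb.le]
    ring
  rw [e1] at t1
  refine t1.congr fun T => ?_
  have hFc := Fr_cont T
  have ci : ∀ p q : ℝ, IntervalIntegrable (Fr T) volume p q := fun p q =>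
    hFc.intervalIntegrable p q
  have h1 : ∫ α in (-b)..b, Fr T α = (∫ α in (-b)..(-a), Fr T α) + (∫ α in (-a)..a, Fr T α) +
      ∫ α in a..b, Fr T α := by
    rw [intervalIntegral.integral_add_adjacent_intervals (ci _ _) (ci _ _),
      intervalIntegral.integral_add_adjacent_intervals (ci _ _) (ci _ _)]
  have h2 : ∫ α in (-b)..(-a), Fr T α = ∫ α in a..b, Fr T α := by
    have h3 := intervalIntegral.integral_comp_neg (a := a) (b := b) (Fr T)
    rw [← h3]
    exact intervalIntegral.integral_congr fun α _ => Fr_even T α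
  rw [h1, h2]
  ring

theorem low_all (RH : RiemannHypothesis) (hl : l ≤ atTop) (h : LowOne l) : LowAll l := by
  have hF0 : ∀ᶠ T in l, ∀ α, 0 ≤ Fr T α :=
    hl ((eventually_ge_atTop 10).mono fun T hT α => Fr_nonneg hT α)
  have ci : ∀ T p q : ℝ, IntervalIntegrable (Fr T) volume p q := fun T p q =>
    (Fr_cont T).intervalIntegrable p q
  have cm : ∀ p q : ℝ, IntervalIntegrable mn volume p q := fun p q =>
    mn_cont.intervalIntegrable p q
  have hone : ∀ a b : ℝ, 1 ≤ a → a ≤ b → ∫ α in a..b, mn α = b - a := by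
    intro a b ha hab
    rw [intervalIntegral.integral_congr (g := fun _ => (1 : ℝ))]
    · simp
    · intro α hα
      rw [uIcc_of_le hab] at hα
      show mn α = 1
      unfold mn
      rw [abs_of_pos (by linarith [hα.1]), min_eq_right (by linarith [hα.1])]
  -- up to one
  have below : ∀ a b : ℝ, 0 < a → a < b → b ≤ 1 → ∀ ε : ℝ, 0 < ε →
      ∀ᶠ T in l, (∫ α in a..b, mn α) - ε ≤ ∫ α in a..b, Fr T α := by
    intro a b ha hab hb ε hε
    obtain ⟨c, hc⟩ : ∃ c : ℝ, c = max ((a + b) / 2) (b - ε / 2) := ⟨_, rfl⟩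
    have hac : a < c := by
      have : (a + b) / 2 ≤ c := by rw [hc]; exact le_max_left _ _
      linarith
    have hcb : c < b := by rw [hc]; exact max_lt (by linarith) (by linarith)
    have hce : b - ε / 2 ≤ c := by rw [hc]; exact le_max_right _ _
    have t1 := ((win RH ha hac (by linarith)).mono_left hl).eventually
      (le_mem_nhds (show (∫ α in a..c, mn α) - ε / 2 < ∫ α in a..c, mn α by linarith))
    filter_upwards [t1, hF0] with T h1 h2
    have e1 := intervalIntegral.integral_add_adjacent_intervals (ci T a c) (ci T c b)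
    have e2 := intervalIntegral.integral_add_adjacent_intervals (cm a c) (cm c b)
    have e3 : 0 ≤ ∫ α in c..b, Fr T α := intervalIntegral.integral_nonneg hcb.le fun x _ => h2 x
    have e4 : ∫ α in c..b, mn α ≤ b - c := by
      calc ∫ α in c..b, mn α ≤ ∫ α in c..b, (1 : ℝ) :=
            intervalIntegral.integral_mono_on hcb.le (cm _ _) (by simp) fun x _ => mn_le x
        _ = b - c := by simp
    linarith
  intro a b ha hab ε hε
  rcases le_or_gt b 1 with hb | hb
  · exact below a b ha hab hb ε hε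
  rcases le_or_gt 1 a with h1 | h1
  · filter_upwards [h a b h1 hab ε hε] with T hT
    rw [hone a b h1 hab.le]
    exact hT
  · filter_upwards [below a 1 ha h1 le_rfl (ε / 2) (by positivity),
      h 1 b le_rfl hb (ε / 2) (by positivity)] with T t1 t2
    rw [← intervalIntegral.integral_add_adjacent_intervals (ci T a 1) (ci T 1 b),
      ← intervalIntegral.integral_add_adjacent_intervals (cm a 1) (cm 1 b), hone 1 b le_rfl hb.le]
    linarith

lemma lin_mn {R κ : ℝ} (hR : 1 ≤ R) (hκ : 0 < κ) (hκ1 : κ < 1) :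
    ∫ α in κ..R, (R - α) * mn α = jc R κ + 1 / 6 := by
  have hc : Continuous fun α => (R - α) * mn α := (by fun_prop : Continuous fun α : ℝ => R - α).mul
    mn_cont
  rw [← intervalIntegral.integral_add_adjacent_intervals (b := 1) (hc.intervalIntegrable _ _)
    (hc.intervalIntegrable _ _)]
  have e1 : ∫ α in κ..1, (R - α) * mn α = ∫ α in κ..1, (R * α - α ^ 2) := by
    refine intervalIntegral.integral_congr fun α hα => ?_
    rw [uIcc_of_le hκ1.le] at hα
    show (R - α) * mn α = R * α - α ^ 2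
    unfold mn
    rw [abs_of_pos (by linarith [hα.1]), min_eq_left hα.2]
    ring
  have e2 : ∫ α in (1 : ℝ)..R, (R - α) * mn α = ∫ α in (1 : ℝ)..R, (R - α) := by
    refine intervalIntegral.integral_congr fun α hα => ?_
    rw [uIcc_of_le hR] at hα
    show (R - α) * mn α = R - α
    unfold mn
    rw [abs_of_pos (by linarith [hα.1]), min_eq_right hα.1, mul_one]
  rw [e1, e2, intervalIntegral.integral_sub (by
    apply Continuous.intervalIntegrable; fun_prop) (by
    apply Continuous.intervalIntegrable; fun_prop), intervalIntegral.integral_sub (by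
    apply Continuous.intervalIntegrable; fun_prop) (by
    apply Continuous.intervalIntegrable; fun_prop), intervalIntegral.integral_const_mul,
    intervalIntegral.integral_const, integral_id, integral_id, integral_pow]
  simp only [smul_eq_mul]
  unfold jc
  norm_num
  ring

/-- an upper bound for the pairing with the tent turns lower bounds for the means into upper
bounds -/
theorem turn (RH : RiemannHypothesis) (hl : l ≤ atTop) (h : LowAll l) {R P : ℝ} (hR : 1 ≤ R)
    (hP : ∀ᶠ T in l, R ^ 2 * (∫ α, tr R α * Fr T α) ≤ R ^ 2 + P)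
    {a b : ℝ} (ha : 0 < a) (hab : a < b) (hbR : b < R) {ε : ℝ} (hε : 0 < ε) :
    ∀ᶠ T in l, ∫ α in a..b, Fr T α ≤ (∫ α in a..b, mn α) + P / (2 * (R - b)) + ε := by
  have hF0 : ∀ᶠ T in l, ∀ α, 0 ≤ Fr T α :=
    hl ((eventually_ge_atTop 10).mono fun T hT α => Fr_nonneg hT α)
  obtain ⟨κ, hκ⟩ : ∃ κ : ℝ, κ = min (1 / 2) (a / 2) := ⟨_, rfl⟩
  have hκ0 : 0 < κ := by rw [hκ]; exact lt_min (by norm_num) (by positivity)
  have hκ1 : κ < 1 := by
    have : κ ≤ 1 / 2 := by rw [hκ]; exact min_le_left _ _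
    linarith
  have hκa : κ < a := by
    have : κ ≤ a / 2 := by rw [hκ]; exact min_le_right _ _
    linarith
  have hRb : 0 < R - b := by linarith
  obtain ⟨e, he⟩ : ∃ e : ℝ, e = ε * (R - b) / 4 := ⟨_, rfl⟩
  have he0 : 0 < e := by rw [he]; positivity
  have mk : ∀ a' b' : ℝ, 0 < a' → a' < b' → ∀ {f : ℝ → ℝ}, Continuous f →
      (∀ x ∈ Icc a' b', 0 ≤ f x) → ∀ᶠ T in l,
      (∫ α in a'..b', f α * mn α) - e ≤ ∫ α in a'..b', f α * Fr T α := by
    intro a' b' h1 h2 f hf hf0
    exact low_weight (fun T => Fr_cont T) hF0 mn_cont mn_nonneg h2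
      (fun a'' b'' g1 g2 g3 => h a'' b'' (h1.trans_le g1) g2) hf hf0 he0
  have m1 := mk κ a hκ0 hκa (f := fun α => R - α) (by fun_prop) fun x hx => by
    have := hx.2
    linarith
  have m2 := mk b R (by linarith) hbR (f := fun α => R - α) (by fun_prop) fun x hx => by
    have := hx.2
    linarith
  have m3 := mk a b ha hab (f := fun α => b - α) (by fun_prop) fun x hx => by
    have := hx.2
    linarith
  have m4 := ((A_lim RH hR hκ0 hκ1).mono_left hl).eventually (le_mem_nhds
    (show (R + R * κ ^ 2 - 2 * κ ^ 3 / 3) - 2 * e < R + R * κ ^ 2 - 2 * κ ^ 3 / 3 by linarith))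
  filter_upwards [m1, m2, m3, m4, hP] with T h1 h2 h3 h4 h5
  have hFc := Fr_cont T
  have hci : ∀ {g : ℝ → ℝ}, Continuous g → ∀ p q : ℝ, IntervalIntegrable g volume p q :=
    fun hg p q => hg.intervalIntegrable p q
  have k0 := J_split hR hκ0 hκ1 T
  have k1 : ∫ α in κ..R, (R - α) * Fr T α ≤ jc R κ + P / 2 + e := by
    rw [k0]
    unfold jc
    linarith
  have dec : ∀ g : ℝ → ℝ, Continuous g → ∫ α in κ..R, (R - α) * g α =
      (∫ α in κ..a, (R - α) * g α) + ((∫ α in a..b, (b - α) * g α) + (R - b) * ∫ α in a..b, g α) +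
        ∫ α in b..R, (R - α) * g α := by
    intro g hg
    have c1 : Continuous fun α => (R - α) * g α := (by fun_prop : Continuous fun α : ℝ => R - α).mul hg
    have c2 : Continuous fun α => (b - α) * g α := (by fun_prop : Continuous fun α : ℝ => b - α).mul hg
    have c3 : Continuous fun α => (R - b) * g α := continuous_const.mul hg
    rw [← intervalIntegral.integral_const_mul,
      ← intervalIntegral.integral_add (hci c2 _ _) (hci c3 _ _)]
    have e1 : ∫ α in a..b, ((b - α) * g α + (R - b) * g α) = ∫ α in a..b, (R - α) * g α := by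
      refine intervalIntegral.integral_congr fun α _ => ?_
      show (b - α) * g α + (R - b) * g α = (R - α) * g α
      ring
    rw [e1, intervalIntegral.integral_add_adjacent_intervals (hci c1 _ _) (hci c1 _ _),
      intervalIntegral.integral_add_adjacent_intervals (hci c1 _ _) (hci c1 _ _)]
  have d1 := dec _ hFc
  have d2 := dec _ mn_cont
  rw [lin_mn hR hκ0 hκ1] at d2
  have k2 : (R - b) * ∫ α in a..b, Fr T α ≤
      (R - b) * ((∫ α in a..b, mn α) + P / (2 * (R - b)) + ε) := by
    have e1 : (R - b) * ((∫ α in a..b, mn α) + P / (2 * (R - b)) + ε) =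
        (R - b) * (∫ α in a..b, mn α) + P / 2 + 4 * e := by
      rw [he]
      field_simp
    rw [e1]
    linarith
  exact le_of_mul_le_mul_left k2 hRb

end Q241.LR
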