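import Pool.Agent.Q241.LR.A

/-! # The tent against the number of close pairs -/

set_option autoImplicit false

open MeasureTheory Set Filter Topology

namespace Q241.LR

open Pool.Agent.Y749.Rig
open Pool.Agent.Y763.AH
open Pool.Agent.Y744 (Aa)

variable {l : Filter ℝ}

/-- the indicator of `[-y, y]` -/
noncomputable def ind (y x : ℝ) : ℝ := (Icc (-y) y).indicator (fun _ => (1 : ℝ)) x

lemma ind_nonneg (y x : ℝ) : 0 ≤ ind y x := indicator_nonneg (fun _ _ => zero_le_one) _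

lemma ind_one {y x : ℝ} (h : |x| ≤ y) : ind y x = 1 :=
  indicator_of_mem (show x ∈ Icc (-y) y from abs_le.1 h) _

lemma ind_zero {y x : ℝ} (h : y < |x|) : ind y x = 0 :=
  indicator_of_notMem (show x ∉ Icc (-y) y from fun h' => absurd (abs_le.2 h') (not_le.2 h)) _

/-- the staircase -/
noncomputable def SS (y : ℝ) (m : ℕ) (x : ℝ) : ℝ :=
  (∑ i ∈ Finset.range m, 3 * (1 / 4) ^ (i + 1) * ind (2 ^ (i + 1) * y) x) +
    (1 / 4) ^ m * ind (2 ^ (m + 1) * y) x

lemma SS_succ (y : ℝ) (m : ℕ) (x : ℝ) : SS y (m + 1) x = SS y m x +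
    (1 / 4) ^ (m + 1) * (ind (2 ^ (m + 2) * y) x - ind (2 ^ (m + 1) * y) x) := by
  unfold SS
  rw [Finset.sum_range_succ]
  ring

lemma SS_nonneg (y : ℝ) (m : ℕ) (x : ℝ) : 0 ≤ SS y m x := by
  unfold SS
  refine add_nonneg (Finset.sum_nonneg fun i _ => ?_) ?_
  · have := ind_nonneg (2 ^ (i + 1) * y) x
    positivity
  · have := ind_nonneg (2 ^ (m + 1) * y) x
    positivity

lemma fl_tr_dec {R : ℝ} (hR : 0 < R) {x : ℝ} (hx : x ≠ 0) :
    fl (tr R) x ≤ 1 / (Real.pi * R * |x|) ^ 2 := by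
  have hpi := Real.pi_pos
  have hx0 : 0 < |x| := abs_pos.2 hx
  rw [fl_tr hR hx, div_pow]
  have e : (Real.pi * R * x) ^ 2 = (Real.pi * R * |x|) ^ 2 := by
    rw [mul_pow, mul_pow (Real.pi * R) |x|, sq_abs]
  rw [e]
  apply div_le_div_of_nonneg_right _ (by positivity)
  have h := Real.abs_sin_le_one (Real.pi * R * x)
  rw [← sq_abs]
  nlinarith [abs_nonneg (Real.sin (Real.pi * R * x))]

lemma fl_tr_le1 {R : ℝ} (hR : 0 < R) (x : ℝ) : fl (tr R) x ≤ 1 := by
  rcases eq_or_ne x 0 with hx | hx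
  · rw [hx, fl_tr_zero hR]
  · rw [fl_tr hR hx]
    have h : |Real.sin (Real.pi * R * x) / (Real.pi * R * x)| ≤ 1 := by
      rw [abs_div]
      apply div_le_one_of_le₀ _ (abs_nonneg _)
      exact Real.abs_sin_le_abs
    rw [← sq_abs]
    nlinarith [abs_nonneg (Real.sin (Real.pi * R * x) / (Real.pi * R * x))]

/-- the kernel is below the staircase -/
lemma stair {R : ℝ} (hR : 0 < R) (m : ℕ) {x : ℝ}
    (hx : |x| ≤ 2 ^ (m + 1) * (1 / (Real.pi * R))) : fl (tr R) x ≤ SS (1 / (Real.pi * R)) m x := by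
  have hpi := Real.pi_pos
  obtain ⟨y, hy⟩ : ∃ y : ℝ, y = 1 / (Real.pi * R) := ⟨_, rfl⟩
  have hy0 : 0 < y := by rw [hy]; positivity
  rw [← hy] at hx ⊢
  induction m with
  | zero =>
    have : SS y 0 x = 1 := by
      unfold SS
      rw [Finset.range_zero, Finset.sum_empty, zero_add, pow_zero, one_mul, zero_add] 
      exact ind_one (by simpa using hx)
    rw [this]
    exact fl_tr_le1 hR x
  | succ m ih =>
    rw [SS_succ]
    rcases le_or_gt |x| (2 ^ (m + 1) * y) with h1 | h1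
    · rw [ind_one h1, ind_one (show |x| ≤ 2 ^ (m + 2) * y from hx), sub_self, mul_zero, add_zero]
      exact ih h1
    · rw [ind_zero h1, ind_one (show |x| ≤ 2 ^ (m + 2) * y from hx), sub_zero, mul_one]
      have hx0 : x ≠ 0 := by
        intro h
        rw [h, abs_zero] at h1
        have : 0 < 2 ^ (m + 1) * y := by positivity
        linarith
      have h2 := fl_tr_dec hR hx0
      have h3 := SS_nonneg y m x
      have h4 : 1 / (Real.pi * R * |x|) ^ 2 ≤ (1 / 4) ^ (m + 1) := by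
        have h5 : (2 : ℝ) ^ (m + 1) ≤ Real.pi * R * |x| := by
          calc (2 : ℝ) ^ (m + 1) = Real.pi * R * (2 ^ (m + 1) * y) := by
                rw [hy]; field_simp
            _ ≤ _ := by gcongr
        have h6 : ((2 : ℝ) ^ (m + 1)) ^ 2 ≤ (Real.pi * R * |x|) ^ 2 := by gcongr
        have h7 : ((2 : ℝ) ^ (m + 1)) ^ 2 = 4 ^ (m + 1) := by
          rw [← pow_mul, mul_comm, pow_mul]; norm_num
        rw [h7] at h6
        rw [one_div_pow]
        exact one_div_le_one_div_of_le (by positivity) h6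
      linarith

/-- the kernel everywhere -/
lemma kern {R e0 : ℝ} (hR : 0 < R) (he : 0 < e0) (m : ℕ) (hm : 2 ^ (m + 1) * (1 / (Real.pi * R)) = e0)
    (x : ℝ) : fl (tr R) x ≤ SS (1 / (Real.pi * R)) m x +
      (1 + 1 / e0 ^ 2) / R ^ 2 * (1 / (1 + x ^ 2)) := by
  have hpi := Real.pi_pos
  have h0 : 0 ≤ (1 + 1 / e0 ^ 2) / R ^ 2 * (1 / (1 + x ^ 2)) := by positivity
  rcases le_or_gt |x| e0 with h1 | h1
  · have := stair hR m (x := x) (by rw [hm]; exact h1)
    linarith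
  · have hx0 : x ≠ 0 := by
      intro h
      rw [h, abs_zero] at h1
      linarith
    have h2 := fl_tr_dec hR hx0
    have h3 := SS_nonneg (1 / (Real.pi * R)) m x
    have hxp : 0 < |x| := abs_pos.2 hx0
    have h4 : 1 / (Real.pi * R * |x|) ^ 2 ≤ (1 + 1 / e0 ^ 2) / R ^ 2 * (1 / (1 + x ^ 2)) := by
      have h5 : (1 + 1 / e0 ^ 2) / R ^ 2 * (1 / (1 + x ^ 2)) =
          (1 + 1 / e0 ^ 2) / (R ^ 2 * (1 + x ^ 2)) := by
        rw [div_mul_div_comm, mul_one]
      rw [h5, div_le_div_iff₀ (by positivity) (by positivity), one_mul]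
      have h6 : 1 ≤ 1 / e0 ^ 2 * x ^ 2 := by
        rw [one_div, inv_mul_eq_div, le_div_iff₀ (by positivity), one_mul, ← sq_abs x]
        gcongr
      have h7 : (1 : ℝ) ≤ Real.pi ^ 2 := by nlinarith [Real.pi_gt_three]
      have h8 : 1 + x ^ 2 ≤ (1 + 1 / e0 ^ 2) * x ^ 2 := by nlinarith
      calc R ^ 2 * (1 + x ^ 2) ≤ R ^ 2 * ((1 + 1 / e0 ^ 2) * x ^ 2) := by gcongr
        _ = 1 * (R ^ 2 * ((1 + 1 / e0 ^ 2) * x ^ 2)) := by ring
        _ ≤ Real.pi ^ 2 * (R ^ 2 * ((1 + 1 / e0 ^ 2) * x ^ 2)) := by gcongr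
        _ = (1 + 1 / e0 ^ 2) * (Real.pi * R * |x|) ^ 2 := by
            rw [mul_pow, mul_pow, sq_abs]; ring
    linarith

/-- the density of the pairs of zeros near the origin is at most `D` -/
def DensA (l : Filter ℝ) (D : ℝ) : Prop := ∀ η : ℝ, 0 < η → ∃ e0 : ℝ, 0 < e0 ∧
  ∀ e : ℝ, 0 < e → e ≤ e0 → ∀ᶠ T in l, Aa T e ≤ 1 + 2 * (D + η) * e

lemma wsum (y : ℝ) (m : ℕ) : (∑ i ∈ Finset.range m, 3 * (1 / 4 : ℝ) ^ (i + 1)) + (1 / 4) ^ m = 1 ∧
    (∑ i ∈ Finset.range m, 3 * (1 / 4 : ℝ) ^ (i + 1) * (2 ^ (i + 1) * y)) +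
      (1 / 4) ^ m * (2 ^ (m + 1) * y) = 3 * y - (1 / 2) ^ m * y := by
  induction m with
  | zero => simp; ring
  | succ m ih =>
    obtain ⟨h1, h2⟩ := ih
    constructor
    · rw [Finset.sum_range_succ]
      have : (1 / 4 : ℝ) ^ (m + 1) = (1 / 4) ^ m * (1 / 4) := pow_succ _ _
      rw [this]
      linarith
    · rw [Finset.sum_range_succ]
      have e1 : (1 / 4 : ℝ) ^ (m + 1) * 2 ^ (m + 1) = (1 / 2) ^ (m + 1) := by
        rw [← mul_pow]; norm_num
      have e2 : (1 / 4 : ℝ) ^ m * 2 ^ m = (1 / 2) ^ m := by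
        rw [← mul_pow]; norm_num
      have e3 : (1 / 4 : ℝ) ^ m * (2 ^ (m + 1) * y) = 2 * (1 / 2) ^ m * y := by
        rw [← e2]; ring
      have e4 : 3 * (1 / 4 : ℝ) ^ (m + 1) * (2 ^ (m + 1) * y) = 3 * (1 / 2) ^ (m + 1) * y := by
        rw [← e1]; ring
      have e5 : (1 / 4 : ℝ) ^ (m + 1) * (2 ^ (m + 1 + 1) * y) = 2 * (1 / 2) ^ (m + 1) * y := by
        rw [← e1]; ring
      rw [e4, e5]
      rw [e3] at h2
      have e6 : (1 / 2 : ℝ) ^ (m + 1) = (1 / 2) ^ m * (1 / 2) := pow_succ _ _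
      rw [e6]
      linarith

/-- the pairing with the tent is small -/
theorem tent_up (hl : l ≤ atTop) {D : ℝ} (hD : 0 ≤ D) (h : DensA l D) {η : ℝ} (hη : 0 < η) :
    ∃ P0 e0 : ℝ, 0 < P0 ∧ 0 < e0 ∧ ∀ m : ℕ, ∀ R : ℝ, 0 < R → 2 ^ (m + 1) * (1 / (Real.pi * R)) = e0 →
      ∀ᶠ T in l, R ^ 2 * (∫ α, tr R α * Fr T α) ≤ R ^ 2 + (2 * (D + η) * R + P0) := by
  obtain ⟨C, hC, hB⟩ := Mp_bdd
  obtain ⟨e0, he0, hd⟩ := h η hη
  have hpi := Real.pi_pos
  have hDD := DD_nonneg 0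
  refine ⟨(1 + 1 / e0 ^ 2) * (2 * C * DD 0) + 1, e0, by positivity, he0, fun m R hR hm => ?_⟩
  obtain ⟨y, hy⟩ : ∃ y : ℝ, y = 1 / (Real.pi * R) := ⟨_, rfl⟩
  have hy0 : 0 < y := by rw [hy]; positivity
  have hle : ∀ i, i ≤ m → 2 ^ (i + 1) * y ≤ e0 := by
    intro i hi
    rw [← hm, ← hy]
    gcongr
    norm_num
  have hev : ∀ᶠ T in l, ∀ i ∈ Finset.range (m + 1),
      Aa T (2 ^ (i + 1) * y) ≤ 1 + 2 * (D + η) * (2 ^ (i + 1) * y) := by
    rw [Filter.eventually_all_finset]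
    intro i hi
    rw [Finset.mem_range] at hi
    exact hd _ (by positivity) (hle i (by omega))
  filter_upwards [hev, hl hB, hl (eventually_ge_atTop 10)] with T h1 h2 hT
  have hfin := Mp_fin T
  have hC0 : 0 ≤ C := by linarith
  have i3 : Integrable (fun x : ℝ => 1 / (1 + x ^ 2)) (Mp T) := by
    refine Bdd.integrable hC0 h2 ?_ ⟨1, fun x => ?_⟩
    · exact continuous_const.div (by fun_prop) fun x => by positivity
    · rw [abs_of_pos (by positivity)]
  have tail : ∫ x : ℝ, 1 / (1 + x ^ 2) ∂(Mp T) ≤ 2 * C * DD 0 := by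
    have h3 := lint_le hC0 h2 0
    have e0' : {x : ℝ | ((0 : ℕ) : ℝ) ≤ |x|} = univ := by
      ext x; simp
    rw [e0', Measure.restrict_univ] at h3
    rw [integral_eq_lintegral_of_nonneg_ae (ae_of_all _ fun x => by positivity)
      i3.aestronglyMeasurable]
    exact ENNReal.toReal_le_of_le_ofReal (by positivity) h3
  have iind : ∀ z : ℝ, Integrable (ind z) (Mp T) := fun z =>
    (integrable_const (1 : ℝ)).indicator measurableSet_Icc
  have vind : ∀ z : ℝ, ∫ x, ind z x ∂(Mp T) = Aa T z := by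
    intro z
    unfold ind
    rw [integral_indicator measurableSet_Icc, setIntegral_const, smul_eq_mul, mul_one, Mp_Aa hT]
  have iSS : Integrable (SS y m) (Mp T) := by
    unfold SS
    exact (integrable_finsetSum _ fun i _ => (iind _).const_mul _).add ((iind _).const_mul _)
  have vSS : ∫ x, SS y m x ∂(Mp T) ≤ 1 + 2 * (D + η) * (3 * y) := by
    unfold SS
    rw [integral_add (integrable_finsetSum _ fun i _ => (iind _).const_mul _)
      ((iind _).const_mul _), integral_finsetSum _ fun i _ => (iind _).const_mul _,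
      integral_const_mul, vind]
    simp_rw [integral_const_mul, vind]
    obtain ⟨w1, w2⟩ := wsum y m
    have k1 : ∑ i ∈ Finset.range m, 3 * (1 / 4 : ℝ) ^ (i + 1) * Aa T (2 ^ (i + 1) * y) ≤
        ∑ i ∈ Finset.range m, (3 * (1 / 4 : ℝ) ^ (i + 1) +
          2 * (D + η) * (3 * (1 / 4 : ℝ) ^ (i + 1) * (2 ^ (i + 1) * y))) := by
      refine Finset.sum_le_sum fun i hi => ?_
      have h3 := h1 i (Finset.mem_range.2 (by have := Finset.mem_range.1 hi; omega))
      have h4 := mul_le_mul_of_nonneg_left h3 (show 0 ≤ 3 * (1 / 4 : ℝ) ^ (i + 1) by positivity)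
      refine h4.trans (le_of_eq ?_)
      ring
    have k0 : ∑ i ∈ Finset.range m, 2 * (D + η) * (3 * (1 / 4 : ℝ) ^ (i + 1) * (2 ^ (i + 1) * y)) =
        2 * (D + η) * ∑ i ∈ Finset.range m, 3 * (1 / 4 : ℝ) ^ (i + 1) * (2 ^ (i + 1) * y) :=
      (Finset.mul_sum _ _ _).symm
    rw [Finset.sum_add_distrib, k0] at k1
    have k2 := mul_le_mul_of_nonneg_left (h1 m (Finset.mem_range.2 (by omega)))
      (show 0 ≤ (1 / 4 : ℝ) ^ m by positivity)
    have k3 : 0 ≤ (1 / 2 : ℝ) ^ m * y := by positivity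
    have k4 : 0 ≤ D + η := by linarith
    have k5 : 2 * (D + η) * ((∑ i ∈ Finset.range m, 3 * (1 / 4 : ℝ) ^ (i + 1) * (2 ^ (i + 1) * y)) +
      (1 / 4) ^ m * (2 ^ (m + 1) * y)) ≤ 2 * (D + η) * (3 * y) := by
      apply mul_le_mul_of_nonneg_left _ (by linarith)
      rw [w2]
      linarith
    linarith
  have hwc := ww_cont
  have hmain : ∫ α, tr R α * Fr T α ≤ (1 + 2 * (D + η) * (3 * y)) +
      (1 + 1 / e0 ^ 2) / R ^ 2 * (2 * C * DD 0) := by
    rw [Fr_pair (tr_int hR)]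
    calc ∫ x, fl (tr R) x * ww (2 * Real.pi * x / Real.log T) ∂(Mp T)
        ≤ ∫ x, (SS y m x + (1 + 1 / e0 ^ 2) / R ^ 2 * (1 / (1 + x ^ 2))) ∂(Mp T) := by
          refine integral_mono ?_ (iSS.add (i3.const_mul _)) fun x => ?_
          · refine (Bdd.integrable hC0 h2 (fl_cont (tr_int hR)) (fl_qd (adm_tr hR))).mul_bdd
              (c := 1) (by fun_prop) (ae_of_all _ fun x => ?_)
            rw [Real.norm_eq_abs, abs_of_pos (ww_pos _)]
            exact ww_le _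
          · show fl (tr R) x * ww (2 * Real.pi * x / Real.log T) ≤ _
            have g1 := kern hR he0 m hm x
            rw [← hy] at g1
            have g2 := fl_tr_nonneg hR x
            have g3 := ww_le (2 * Real.pi * x / Real.log T)
            have g4 : fl (tr R) x * ww (2 * Real.pi * x / Real.log T) ≤ fl (tr R) x * 1 :=
              mul_le_mul_of_nonneg_left g3 g2
            linarith
      _ = (∫ x, SS y m x ∂(Mp T)) + (1 + 1 / e0 ^ 2) / R ^ 2 * ∫ x : ℝ, 1 / (1 + x ^ 2) ∂(Mp T) := by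
          rw [integral_add iSS (i3.const_mul _), integral_const_mul]
      _ ≤ _ := by gcongr
  have hyR : R ^ 2 * (2 * (D + η) * (3 * y)) ≤ 2 * (D + η) * R := by
    have e1 : R ^ 2 * (2 * (D + η) * (3 * y)) = 2 * (D + η) * R * (3 / Real.pi) := by
      rw [hy]; field_simp
    rw [e1]
    have e2 : 3 / Real.pi ≤ 1 := by
      rw [div_le_one hpi]
      exact Real.pi_gt_three.le
    have e3 : 0 ≤ 2 * (D + η) * R := by positivity
    calc _ ≤ 2 * (D + η) * R * 1 := by gcongr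
      _ = _ := mul_one _
  calc R ^ 2 * (∫ α, tr R α * Fr T α) ≤ R ^ 2 * ((1 + 2 * (D + η) * (3 * y)) +
        (1 + 1 / e0 ^ 2) / R ^ 2 * (2 * C * DD 0)) := by gcongr
    _ = R ^ 2 + R ^ 2 * (2 * (D + η) * (3 * y)) + (1 + 1 / e0 ^ 2) * (2 * C * DD 0) := by
        field_simp
    _ ≤ _ := by linarith

/-- **Upper bounds from lower bounds and the density of close pairs** -/
theorem up_low (RH : RiemannHypothesis) (hl : l ≤ atTop) (h : LowAll l) {D : ℝ} (hD : 0 ≤ D)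
    (hd : DensA l D) {a b : ℝ} (ha : 0 < a) (hab : a < b) {ε : ℝ} (hε : 0 < ε) :
    ∀ᶠ T in l, ∫ α in a..b, Fr T α ≤ (∫ α in a..b, mn α) + D + ε := by
  have hpi := Real.pi_pos
  obtain ⟨P0, e0, hP0, he0, hup⟩ := tent_up hl hD hd (η := ε / 4) (by positivity)
  obtain ⟨K, hK⟩ : ∃ K : ℝ, K = max (b + 1) (b + 4 * ((D + ε / 4) * b + P0) / ε) := ⟨_, rfl⟩
  have hK1 : b + 1 ≤ K := by rw [hK]; exact le_max_left _ _
  have hK2 : b + 4 * ((D + ε / 4) * b + P0) / ε ≤ K := by rw [hK]; exact le_max_right _ _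
  obtain ⟨m, hm⟩ := pow_unbounded_of_one_lt (K * (Real.pi * e0)) (one_lt_two (α := ℝ))
  obtain ⟨R, hR⟩ : ∃ R : ℝ, R = 2 ^ (m + 1) / (Real.pi * e0) := ⟨_, rfl⟩
  have hR0 : 0 < R := by rw [hR]; positivity
  have hRK : K ≤ R := by
    rw [hR, le_div_iff₀ (by positivity)]
    refine hm.le.trans ?_
    rw [pow_succ]
    have : (0 : ℝ) < 2 ^ m := by positivity
    linarith
  have hb : 0 < b := ha.trans hab
  have hRe : 2 ^ (m + 1) * (1 / (Real.pi * R)) = e0 := by
    rw [hR]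
    field_simp
  have h1 := hup m R hR0 hRe
  filter_upwards [turn RH hl h (R := R) (by linarith) h1 ha hab (by linarith) (ε := ε / 4)
    (by positivity)] with T hT
  have hRb : 0 < R - b := by linarith
  have h2 : (2 * (D + ε / 4) * R + P0) / (2 * (R - b)) ≤ D + ε / 4 + ε / 4 := by
    rw [div_le_iff₀ (by positivity)]
    have h3 : 4 * ((D + ε / 4) * b + P0) / ε ≤ R - b := by linarith
    rw [div_le_iff₀ hε] at h3
    nlinarith
  linarith

end Q241.LR
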