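import Pool.Agent.Q241.LR.B

/-! # The criterion -/

set_option autoImplicit false

open MeasureTheory Set Filter Topology

namespace Q241.LR

open Pool.Agent.Y749.Rig
open Pool.Agent.Y744 (Aa AG gp gd Nr Nr_all)
open Pool.Agent.Y744.G (N X Montgomery)

variable {l : Filter ℝ}

lemma N_Aa {T : ℝ} (hT : 10 ≤ T) (e : ℝ) : (N T (-e) e : ℝ) = Aa T e * X T := by
  have hX : Pool.Agent.Y744.Xf T ≠ 0 := (Pool.Agent.Y744.Xf_pos (by linarith)).ne'
  rw [Pool.Agent.Y744.G.N_eq (by linarith), Pool.Agent.Y744.G.X_eq, ← Mp_Aa hT,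
    Mp_PC hT measurableSet_Icc, div_mul_cancel₀ _ hX]

lemma X_pos {T : ℝ} (hT : 10 ≤ T) : 0 < X T := by
  rw [Pool.Agent.Y744.G.X_eq]
  exact Pool.Agent.Y744.Xf_pos (by linarith)

/-- few close pairs -/
def Density (l : Filter ℝ) (D : ℝ) : Prop := ∀ η : ℝ, 0 < η → ∃ e0 : ℝ, 0 < e0 ∧
  ∀ e : ℝ, 0 < e → e ≤ e0 → ∀ᶠ T in l, (N T (-e) e : ℝ) ≤ (1 + 2 * (D + η) * e) * X T

lemma dens_iff (hl : l ≤ atTop) (D : ℝ) : Density l D ↔ DensA l D := by
  unfold Density DensA
  refine forall_congr' fun η => forall_congr' fun _ => exists_congr fun e0 =>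
    and_congr_right fun _ => forall_congr' fun e => forall_congr' fun _ => forall_congr' fun _ => ?_
  have h10 : ∀ᶠ T in l, 10 ≤ T := hl (eventually_ge_atTop 10)
  constructor
  · intro h
    filter_upwards [h, h10] with T h1 hT
    rw [N_Aa hT] at h1
    exact le_of_mul_le_mul_right h1 (X_pos hT)
  · intro h
    filter_upwards [h, h10] with T h1 hT
    rw [N_Aa hT]
    exact mul_le_mul_of_nonneg_right h1 (X_pos hT).le

lemma mn_one {a b : ℝ} (ha : 1 ≤ a) (hab : a ≤ b) : ∫ α in a..b, mn α = b - a := by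
  rw [intervalIntegral.integral_congr (g := fun _ => (1 : ℝ))]
  · simp
  · intro α hα
    rw [uIcc_of_le hab] at hα
    show mn α = 1
    unfold mn
    rw [abs_of_pos (by linarith [hα.1]), min_eq_right (by linarith [hα.1])]

lemma gp_small {η : ℝ} (hη : 0 < η) : ∃ e0 : ℝ, 0 < e0 ∧ ∀ e : ℝ, 0 < e → e ≤ e0 →
    gp e ≤ η * e := by
  have h0 : gd 0 = 0 := by
    unfold gd
    rw [mul_zero, Real.sinc_zero]
    norm_num
  have hc := Pool.Agent.Y744.gd_cont
  have h1 : ∀ᶠ u in 𝓝 (0 : ℝ), gd u < η := by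
    have := hc.tendsto 0
    rw [h0] at this
    exact this.eventually (gt_mem_nhds hη)
  obtain ⟨δ, hδ, h2⟩ := Metric.eventually_nhds_iff.1 h1
  refine ⟨δ / 2, by positivity, fun e he1 he2 => ?_⟩
  unfold gp
  calc ∫ u in (0 : ℝ)..e, gd u ≤ ∫ u in (0 : ℝ)..e, η := by
        refine intervalIntegral.integral_mono_on he1.le (hc.intervalIntegrable _ _) (by simp)
          fun u hu => ?_
        refine (h2 ?_).le
        rw [Real.dist_eq, sub_zero, abs_of_nonneg hu.1]
        linarith [hu.2]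
    _ = η * e := by simp; ring

theorem mean_of (RH : RiemannHypothesis) (hl : l ≤ atTop) (h : Montgomery l) : MeanLim l := by
  rw [Pool.Agent.Y744.G.Mont_iff hl] at h
  exact mean_lim RH hl fun R => up_weak hl (weak_win hl h) R

theorem dens_of (hl : l ≤ atTop) (h : Montgomery l) : DensA l 0 := by
  rw [Pool.Agent.Y744.G.Mont_iff hl] at h
  intro η hη
  obtain ⟨e0, he0, hg⟩ := gp_small (η := η / 2) (by positivity)
  refine ⟨e0, he0, fun e h1 h2 => ?_⟩
  have h3 := Aa_lim hl (weak_win hl h) e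
  have h4 : AG e = 1 + 2 * gp e := by
    unfold AG
    rw [if_neg (by linarith)]
  have h5 := hg e h1 h2
  have h6 : AG e < 1 + 2 * (0 + η) * e := by
    rw [h4]
    nlinarith [mul_pos hη h1]
  exact h3.eventually (ge_mem_nhds h6)

/-- **The criterion** -/
theorem main (RH : RiemannHypothesis) (hl : l ≤ atTop) :
    (Montgomery l ↔ LowOne l ∧ Density l 0) ∧
    (∀ D : ℝ, 0 ≤ D → LowOne l → Density l D → ∀ a b : ℝ, 1 ≤ a → a < b → ∀ ε : ℝ, 0 < ε →
      ∀ᶠ T in l, ∫ α in a..b, Fr T α ≤ (b - a) + D + ε) := by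
  refine ⟨⟨fun h => ⟨?_, (dens_iff hl 0).2 (dens_of hl h)⟩, ?_⟩, ?_⟩
  · intro a b ha hab ε hε
    have h1 := mean_of RH hl h a b (by linarith) hab
    rw [mn_one ha hab.le] at h1
    exact h1.eventually (le_mem_nhds (by linarith))
  · rintro ⟨h1, h2⟩
    rw [dens_iff hl] at h2
    have h3 := low_all RH hl h1
    rw [(P.main RH l hl).1]
    intro R
    rw [P.up_iff hl]
    intro a b ha hab _ ε hε
    have := up_low RH hl h3 le_rfl h2 ha hab hε
    simpa using this
  · intro D hD h1 h2 a b ha hab ε hε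
    rw [dens_iff hl] at h2
    have := up_low RH hl (low_all RH hl h1) hD h2 (show 0 < a by linarith) hab hε
    rwa [mn_one ha hab.le] at this

end Q241.LR
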